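import Pool.Agent.W187.CV.Stm
import Pool.Agent.H921R2.TatePole.Dedekind

set_option autoImplicit false

namespace Pool.Agent.W684.CV

open Pool.Agent.W187.CV NumberField IsDedekindDomain
open Pool.Agent.H921R2.TatePole (nm two_le_nm nm_summable)

theorem nfs : S_NF := by
  intro K _ _ θ hθ
  have h2 : ∀ v : HeightOneSpectrum (𝓞 K), (2 : ℝ) ≤ (nm v : ℝ) := fun v => by
    exact_mod_cast two_le_nm v
  have hr0 : (0 : ℝ) ≤ (2 : ℝ) ^ (-θ) := by positivity
  have hr1 : (2 : ℝ) ^ (-θ) < 1 := Real.rpow_lt_one_of_one_lt_of_neg (by norm_num) (by linarith)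
  have hg : Summable (fun k : ℕ => ((2 : ℝ) ^ (-θ)) ^ k) := summable_geometric_of_lt_one hr0 hr1
  have hn : Summable (fun v : HeightOneSpectrum (𝓞 K) => (nm v : ℝ) ^ (-θ)) := nm_summable hθ
  have hprod : Summable (fun x : HeightOneSpectrum (𝓞 K) × ℕ =>
      (nm x.1 : ℝ) ^ (-θ) * ((2 : ℝ) ^ (-θ)) ^ x.2) :=
    Summable.mul_of_nonneg hn hg (fun v => by positivity) (fun k => by positivity)
  refine Summable.of_nonneg_of_le (fun x => (Real.exp_pos _).le) ?_ hprod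
  rintro ⟨v, k⟩
  have hv := h2 v
  have hv0 : (0 : ℝ) < (nm v : ℝ) := by linarith
  have e1 : Real.exp (-(θ * (((k : ℝ) + 1) * Real.log (Ideal.absNorm v.asIdeal)))) =
      (nm v : ℝ) ^ (-θ) * ((nm v : ℝ) ^ (-θ)) ^ k := by
    rw [← Real.rpow_natCast, ← Real.rpow_mul hv0.le, ← Real.rpow_add hv0, Real.rpow_def_of_pos hv0]
    congr 1
    change -(θ * (((k : ℝ) + 1) * Real.log (nm v : ℝ))) = _
    ring
  change Real.exp (-(θ * (((k : ℝ) + 1) * Real.log (Ideal.absNorm v.asIdeal)))) ≤ _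
  rw [e1]
  have e2 : (nm v : ℝ) ^ (-θ) ≤ (2 : ℝ) ^ (-θ) :=
    Real.rpow_le_rpow_of_nonpos (by norm_num) hv (by linarith)
  gcongr

end Pool.Agent.W684.CV
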